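import Pool.Agent.L5helper86.UL.Gold6

/-! MP_61161c_nt (helper86): the asymptotic formula of Hardy and Littlewood for the representations of every large even
integer as a sum of two elements of a semi-random set in place of the primes: the sieve of Eratosthenes is exact for the primes
`p ≤ w r` and random for the primes `w r < p ≤ r ^ θ`. -/

set_option autoImplicit false

namespace Pool.Agent.Results.MP_61161c_nt.EveryEvenInteger

open Finset MeasureTheory ProbabilityTheory Filter Topology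

/-- the semi-random set `R`: the positive integers `r` without prime factors `p ≤ w r` and with `r ≢ a p` modulo `p` for
the primes `w r < p ≤ r ^ θ` -/
def InR (w : ℕ → ℝ) (θ : ℝ) (a : ℕ → ℕ) (r : ℕ) : Prop :=
  0 < r ∧ ∀ p : ℕ, p.Prime → ((p : ℝ) ≤ w r → ¬ p ∣ r) ∧ (w r < p → (p : ℝ) ≤ (r : ℝ) ^ θ → ¬ r ≡ a p [MOD p])

open Classical in
/-- the number of the integers `m` in `(u, v]` with `m` and `n - m` in `R` -/
noncomputable def reps (w : ℕ → ℝ) (θ : ℝ) (a : ℕ → ℕ) (n u v : ℕ) : ℕ :=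
  #((Ioc u v).filter fun m => InR w θ a m ∧ InR w θ a (n - m))

/-- the twin prime constant `∏_{p > 2} (1 - 1 / (p - 1) ^ 2)` (the infimum of the partial products) -/
noncomputable def C₂ : ℝ := ⨅ z : ℕ, ∏ p ∈ (Icc 3 z).filter Nat.Prime, (1 - 1 / ((p : ℝ) - 1) ^ 2)

/-- the singular series `2 C₂ ∏_{p ∣ n, p > 2} (p - 1) / (p - 2)` -/
noncomputable def sing (n : ℕ) : ℝ :=
  2 * C₂ * ∏ p ∈ n.primeFactors.filter (fun p => 2 < p), ((p : ℝ) - 1) / ((p : ℝ) - 2)

lemma SR_iff {w : ℕ → ℝ} {θ : ℝ} {a : ℕ → ℕ} {r : ℕ} (hr : 0 < r) :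
    L5helper86.UL.SR w (fun v : ℕ => (v : ℝ) ^ θ) (fun _ => 0) a (r : ℤ) ↔ InR w θ a r := by
  unfold L5helper86.UL.SR InR
  simp only [Int.natAbs_natCast]
  have h1 : ∀ p : ℕ, (r : ℤ) ≡ 0 [ZMOD p] ↔ p ∣ r := by
    intro p
    rw [Int.modEq_zero_iff_dvd, Int.natCast_dvd_natCast]
  have h2 : ∀ p : ℕ, (r : ℤ) ≡ (a p : ℤ) [ZMOD p] ↔ r ≡ a p [MOD p] := fun p => Int.natCast_modEq_iff
  simp only [h1, h2]
  exact ⟨fun h => ⟨hr, h⟩, fun h => h.2⟩

lemma pair_iff {w : ℕ → ℝ} {θ : ℝ} {a : ℕ → ℕ} {n m : ℕ} (h0 : 0 < m) (hm : m < n) :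
    (∀ i, L5helper86.UL.SR w (fun v : ℕ => (v : ℝ) ^ θ) (fun _ => 0) a
      ((L5helper86.UL.pair Polynomial.X (n : ℤ) i).eval (m : ℤ))) ↔ InR w θ a m ∧ InR w θ a (n - m) := by
  rw [Fin.forall_fin_two, L5helper86.UL.pair_zero, L5helper86.UL.pair_one, Polynomial.eval_X]
  have h1 : (n : ℤ) - m = ((n - m : ℕ) : ℤ) := by
    push_cast [hm.le]
    ring
  rw [h1, SR_iff h0, SR_iff (by omega)]

open Classical in
lemma RR_sum (w : ℕ → ℝ) (θ : ℝ) (a : ℕ → ℕ) (n u H : ℕ) : L5helper86.UL.RR w θ a n u H =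
    ∑ m ∈ Ioc u (u + H), if (∀ i, L5helper86.UL.SR w (fun v : ℕ => (v : ℝ) ^ θ) (fun _ => 0) a
      ((L5helper86.UL.pair Polynomial.X (n : ℤ) i).eval (m : ℤ))) then (1 : ℝ) else 0 := by
  rw [← L5helper86.UL.sum_int u H fun m => if (∀ i, L5helper86.UL.SR w (fun v : ℕ => (v : ℝ) ^ θ) (fun _ => 0) a
      ((L5helper86.UL.pair Polynomial.X (n : ℤ) i).eval m)) then (1 : ℝ) else 0]
  unfold L5helper86.UL.RR
  rw [← sum_filter, sum_const, nsmul_eq_mul, mul_one]

open Classical in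
lemma reps_sum (w : ℕ → ℝ) (θ : ℝ) (a : ℕ → ℕ) (n u v : ℕ) : (reps w θ a n u v : ℝ) =
    ∑ m ∈ Ioc u v, if InR w θ a m ∧ InR w θ a (n - m) then (1 : ℝ) else 0 := by
  unfold reps
  rw [← sum_filter, sum_const, nsmul_eq_mul, mul_one]

lemma reps_eq {w : ℕ → ℝ} {θ : ℝ} {a : ℕ → ℕ} {n u H : ℕ} (h : u + H < n) :
    (reps w θ a n u (u + H) : ℝ) = L5helper86.UL.RR w θ a n u H := by
  classical
  rw [RR_sum, reps_sum]
  refine sum_congr rfl fun m hm => ?_
  rw [mem_Ioc] at hm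
  have h1 := pair_iff (w := w) (θ := θ) (a := a) (n := n) (m := m) (by omega) (by omega)
  by_cases h2 : InR w θ a m ∧ InR w θ a (n - m)
  · rw [if_pos h2, if_pos (h1.2 h2)]
  · rw [if_neg h2, if_neg fun h => h2 (h1.1 h)]

lemma reps_full (w : ℕ → ℝ) (θ : ℝ) (a : ℕ → ℕ) (n : ℕ) :
    |(reps w θ a n 0 n : ℝ) - L5helper86.UL.RR w θ a n 0 n| ≤ 1 := by
  classical
  rw [RR_sum, reps_sum, zero_add, ← sum_sub_distrib]
  refine (abs_sum_le_sum_abs _ _).trans ?_
  calc _ ≤ ∑ m ∈ Ioc 0 n, (if m = n then (1 : ℝ) else 0) := by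
        refine sum_le_sum fun m hm => ?_
        rw [mem_Ioc] at hm
        by_cases hmn : m = n
        · rw [if_pos hmn]
          split_ifs <;> norm_num
        · rw [if_neg hmn]
          have h1 := pair_iff (w := w) (θ := θ) (a := a) (n := n) (m := m) (by omega) (by omega)
          by_cases h2 : InR w θ a m ∧ InR w θ a (n - m)
          · rw [if_pos h2, if_pos (h1.2 h2)]
            norm_num
          · rw [if_neg h2, if_neg fun h => h2 (h1.1 h)]
            norm_num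
    _ ≤ 1 := by
        rw [sum_ite_eq']
        split_ifs <;> norm_num

open Classical in
theorem result {Ω : Type} [MeasurableSpace Ω] (P : Measure Ω) [IsProbabilityMeasure P] (a : ℕ → Ω → ℕ)
    (hmeas : ∀ p, Measurable (a p)) (hind : iIndepFun (fun p : Nat.Primes => a p) P)
    (hunif : ∀ p r : ℕ, p.Prime → r < p → P.real {ω | a p ω = r} = 1 / p)
    (θ : ℝ) (hθ : 0 < θ) (w : ℕ → ℝ) (hw : Monotone w) (hlow : ∀ᶠ n : ℕ in atTop, (Real.log n) ^ 5 ≤ w n)
    (hup : ∀ ε : ℝ, 0 < ε → ∀ᶠ n : ℕ in atTop, w n ≤ Real.exp (ε * Real.log n / Real.log (Real.log n))) :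
    ∀ᵐ ω ∂P,
      Tendsto (fun x : ℕ => (#((Icc 1 x).filter fun r => InR w θ (fun p => a p ω) r) : ℝ) * (Real.log x / x)) atTop
        (𝓝 (Real.exp (-Real.eulerMascheroniConstant) / θ)) ∧
      (∀ ε : ℝ, 0 < ε → ∀ᶠ n : ℕ in atTop, Even n →
        |(reps w θ (fun p => a p ω) n 0 n : ℝ) - (Real.exp (-Real.eulerMascheroniConstant) / θ) ^ 2 *
          (sing n * n / (Real.log n) ^ 2)| ≤ ε * (sing n * n / (Real.log n) ^ 2)) ∧
      (∀ κ δ ε : ℝ, 0 < κ → 0 < δ → 0 < ε → ∀ᶠ n : ℕ in atTop, Even n → ∀ u H : ℕ,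
        κ * n ≤ u → (u : ℝ) + H ≤ (1 - κ) * n → (n : ℝ) ^ δ ≤ H →
        |(reps w θ (fun p => a p ω) n u (u + H) : ℝ) - (Real.exp (-Real.eulerMascheroniConstant) / θ) ^ 2 *
          (sing n * H / (Real.log n) ^ 2)| ≤ ε * (sing n * H / (Real.log n) ^ 2)) ∧
      ∀ δ : ℝ, 0 < δ → ∀ᶠ n : ℕ in atTop, Even n → ∃ r s : ℕ, InR w θ (fun p => a p ω) r ∧ InR w θ (fun p => a p ω) s ∧
        r < s ∧ r + s = n ∧ (s : ℝ) - r ≤ (n : ℝ) ^ δ := by
  have hS : L5helper86.UL.Sys P a := ⟨inferInstance, hmeas, hind, hunif⟩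
  have hsing : ∀ n, L5helper86.UL.sing n = sing n := fun n => rfl
  filter_upwards [L5helper86.UL.set_density hS hθ hw hup, L5helper86.UL.gold_full hS hθ hw hlow hup,
    L5helper86.UL.gold_short hS hθ hw hlow hup] with ω h1 h2 h3
  simp only [hsing] at h2 h3
  have h3' : ∀ κ δ ε : ℝ, 0 < κ → 0 < δ → 0 < ε → ∀ᶠ n : ℕ in atTop, Even n → ∀ u H : ℕ,
        κ * n ≤ u → (u : ℝ) + H ≤ (1 - κ) * n → (n : ℝ) ^ δ ≤ H →
        |(reps w θ (fun p => a p ω) n u (u + H) : ℝ) - (Real.exp (-Real.eulerMascheroniConstant) / θ) ^ 2 *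
          (sing n * H / (Real.log n) ^ 2)| ≤ ε * (sing n * H / (Real.log n) ^ 2) := by
    intro κ δ ε hκ hδ hε
    filter_upwards [h3 κ δ ε hκ hδ hε, eventually_ge_atTop 1] with n h4 hn he u H hu1 hu2 hH
    have hn0 : (0 : ℝ) < n := by exact_mod_cast hn
    have h5 : (u : ℝ) + H < n := by nlinarith
    have h6 : u + H < n := by exact_mod_cast h5
    rw [reps_eq h6]
    exact h4 he u H hu1 hu2 hH
  refine ⟨?_, ?_, h3', ?_⟩
  · -- the density of the set
    refine h1.congr fun x => ?_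
    congr 1
    unfold L5helper86.UL.CC
    norm_cast
    symm
    refine card_nbij' (fun r : ℕ => (r : ℤ)) (fun m : ℤ => m.toNat) ?_ ?_ ?_ ?_
    · intro r hr
      rw [mem_coe, mem_filter, mem_Icc] at hr
      rw [mem_coe, mem_filter, mem_Ioc]
      refine ⟨by push_cast; omega, fun i => ?_⟩
      rw [L5helper86.UL.sg_eval, SR_iff (by omega)]
      exact hr.2
    · intro m hm
      rw [mem_coe, mem_filter, mem_Ioc] at hm
      rw [mem_coe, mem_filter, mem_Icc]
      have h5 := hm.2 0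
      rw [L5helper86.UL.sg_eval] at h5
      have h60 := hm.1.1
      have h61 := hm.1.2
      push_cast at h61
      have h6 : ((m.toNat : ℕ) : ℤ) = m := by omega
      have h7 : 1 ≤ m.toNat ∧ m.toNat ≤ x := by omega
      refine ⟨h7, ?_⟩
      show InR w θ (fun p => a p ω) m.toNat
      rw [← SR_iff h7.1, h6]
      exact h5
    · intro r _
      simp
    · intro m hm
      rw [mem_coe, mem_filter, mem_Ioc] at hm
      show ((m.toNat : ℕ) : ℤ) = m
      omega
  · intro ε hε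
    have hbig : ∀ᶠ n : ℕ in atTop, 2 / ε * (Real.log n) ^ 2 ≤ n := by
      have h4 := (isLittleO_log_rpow_atTop (show (0 : ℝ) < 1 / 2 by norm_num)).bound
        (show 0 < Real.sqrt (ε / 2) by positivity)
      have h5 := tendsto_natCast_atTop_atTop.eventually h4
      filter_upwards [h5, eventually_ge_atTop 1] with n h6 hn
      have hn1 : (1 : ℝ) ≤ n := by exact_mod_cast hn
      have hn0 : (0 : ℝ) < n := by linarith
      rw [Real.norm_eq_abs, abs_of_nonneg (Real.log_nonneg hn1), Real.norm_eq_abs, abs_of_nonneg (by positivity)] at h6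
      have h7 : (Real.log n) ^ 2 ≤ ε / 2 * n := by
        calc (Real.log n) ^ 2 ≤ (Real.sqrt (ε / 2) * (n : ℝ) ^ ((1 : ℝ) / 2)) ^ 2 :=
              pow_le_pow_left₀ (Real.log_nonneg hn1) h6 2
          _ = ε / 2 * n := by
              rw [mul_pow, Real.sq_sqrt (by positivity), ← Real.rpow_natCast ((n : ℝ) ^ ((1 : ℝ) / 2)), ← Real.rpow_mul hn0.le]
              norm_num
      calc 2 / ε * (Real.log n) ^ 2 ≤ 2 / ε * (ε / 2 * n) := mul_le_mul_of_nonneg_left h7 (by positivity)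
        _ = n := by field_simp
    filter_upwards [h2 (ε / 2) (by positivity), hbig, eventually_ge_atTop 2] with n h4 h5 hn he
    have hn1 : (1 : ℝ) < n := by exact_mod_cast (by omega : 1 < n)
    have hn0 : (0 : ℝ) < n := by linarith
    have hlog : 0 < Real.log n := Real.log_pos hn1
    have h6 := h4 he
    have h7 := reps_full w θ (fun p => a p ω) n
    have hs := L5helper86.UL.sing_low n
    rw [hsing] at hs
    have h8 : 1 ≤ ε / 2 * (sing n * n / (Real.log n) ^ 2) := by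
      have h9 : 2 / ε ≤ n / (Real.log n) ^ 2 := by
        rw [le_div_iff₀ (by positivity)]
        exact h5
      have h10 : (n : ℝ) / (Real.log n) ^ 2 ≤ sing n * n / (Real.log n) ^ 2 :=
        div_le_div_of_nonneg_right (le_mul_of_one_le_left hn0.le hs) (by positivity)
      calc (1 : ℝ) = ε / 2 * (2 / ε) := by field_simp
        _ ≤ _ := mul_le_mul_of_nonneg_left (h9.trans h10) (by positivity)
    rw [abs_le] at h6 h7 ⊢
    constructor <;> linarith [h6.1, h6.2, h7.1, h7.2]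
  · intro δ hδ
    obtain ⟨δ', hδ'⟩ : ∃ δ' : ℝ, δ' = min δ (1 / 2) := ⟨_, rfl⟩
    have hδ'0 : 0 < δ' := by rw [hδ']; exact lt_min hδ (by norm_num)
    have hδ'1 : δ' ≤ 1 / 2 := by rw [hδ']; exact min_le_right _ _
    have hδ'2 : δ' ≤ δ := by rw [hδ']; exact min_le_left _ _
    have hc0 : 0 < (Real.exp (-Real.eulerMascheroniConstant) / θ) ^ 2 := by
      have := div_pos (Real.exp_pos (-Real.eulerMascheroniConstant)) hθ
      positivity
    have hbig : ∀ᶠ n : ℕ in atTop, (4 : ℝ) ≤ (n : ℝ) ^ (δ' / 2) :=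
      ((tendsto_rpow_atTop (by positivity)).comp tendsto_natCast_atTop_atTop).eventually_ge_atTop 4
    filter_upwards [h3' (1 / 4) (δ' / 2) ((Real.exp (-Real.eulerMascheroniConstant) / θ) ^ 2 / 2) (by norm_num)
      (by positivity) (by positivity), hbig, eventually_ge_atTop 16] with n h4 h5 hn he
    obtain ⟨q, hq⟩ := he
    have hn16 : (16 : ℝ) ≤ n := by exact_mod_cast hn
    have hn1 : (1 : ℝ) ≤ n := by linarith
    have hn0 : (0 : ℝ) < n := by linarith
    have hqn : (n : ℝ) = 2 * q := by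
      have : n = 2 * q := by omega
      exact_mod_cast this
    obtain ⟨H, hH⟩ : ∃ H : ℕ, H = ⌊(n : ℝ) ^ δ' / 2⌋₊ := ⟨_, rfl⟩
    have hH1 : (H : ℝ) ≤ (n : ℝ) ^ δ' / 2 := by rw [hH]; exact Nat.floor_le (by positivity)
    have hH2 : (n : ℝ) ^ δ' / 2 < (H : ℝ) + 1 := by rw [hH]; exact Nat.lt_floor_add_one _
    have e1 : (n : ℝ) ^ δ' = (n : ℝ) ^ (δ' / 2) * (n : ℝ) ^ (δ' / 2) := by
      rw [← Real.rpow_add hn0]
      congr 1
      ring
    have hH3 : (n : ℝ) ^ (δ' / 2) ≤ H := by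
      obtain ⟨x, hx⟩ : ∃ x, x = (n : ℝ) ^ (δ' / 2) := ⟨_, rfl⟩
      rw [e1, ← hx] at hH2
      rw [← hx] at h5 ⊢
      nlinarith
    have hsq : (n : ℝ) ^ δ' ≤ n / 4 := by
      calc (n : ℝ) ^ δ' ≤ (n : ℝ) ^ ((1 : ℝ) / 2) := Real.rpow_le_rpow_of_exponent_le hn1 hδ'1
        _ = Real.sqrt n := (Real.sqrt_eq_rpow n).symm
        _ ≤ n / 4 := by
            rw [Real.sqrt_le_left (by positivity)]
            nlinarith
    have h6 := h4 ⟨q, hq⟩ q H (by rw [hqn]; linarith) (by linarith) hH3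
    have hHpos : (0 : ℝ) < H := by linarith
    have hs := L5helper86.UL.sing_low n
    rw [hsing] at hs
    have hlog : 0 < Real.log n := Real.log_pos (by linarith)
    have hT : 0 < sing n * H / (Real.log n) ^ 2 := by positivity
    have h7 : (0 : ℝ) < reps w θ (fun p => a p ω) n q (q + H) := by
      rw [abs_le] at h6
      have h8 := h6.1
      have h9 : 0 < (Real.exp (-Real.eulerMascheroniConstant) / θ) ^ 2 * (sing n * H / (Real.log n) ^ 2) := mul_pos hc0 hT
      linarith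
    have h8 : 0 < reps w θ (fun p => a p ω) n q (q + H) := by exact_mod_cast h7
    unfold reps at h8
    rw [card_pos] at h8
    obtain ⟨m, hm⟩ := h8
    rw [mem_filter, mem_Ioc] at hm
    have hmH : (m : ℝ) ≤ q + H := by exact_mod_cast hm.1.2
    have hmn : m < n := by
      have : (m : ℝ) < n := by linarith
      exact_mod_cast this
    refine ⟨n - m, m, hm.2.2, hm.2.1, by omega, by omega, ?_⟩
    rw [Nat.cast_sub hmn.le]
    have h9 : (n : ℝ) ^ δ' ≤ (n : ℝ) ^ δ := Real.rpow_le_rpow_of_exponent_le hn1 hδ'2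
    linarith

end Pool.Agent.Results.MP_61161c_nt.EveryEvenInteger
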