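import Pool.Agent.L5helper4.DL.Gold
import Pool.Agent.W93.PG6

/-!
# Progressions of representations as a sum of two primes: popular differences at all scales

For even `m` let `G = reps m y₁ y₂` be the set of the primes `p` in the window `(y₁, y₂]` such that `m - p` is prime.
Hardy and Littlewood expect `sing m * H / (log m) ^ 2` elements, `H = y₂ - y₁`.

1. Every even `m`. Let `m` be large and even and let `P` be ANY subset of `G` with at least `δ sing m H / (log m) ^ 2`
elements, for ANY window of length `H ≥ m / (log m) ^ A`. Then for EVERY `D` between `(log m) ^ B` and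
`H / (log m) ^ B` at least `c D` of the differences `d ≤ D` have the property that ALL the parts `F ∋ 0` of the
progression `0, 1, …, k - 1` occur in `P` with the difference `d` at least `c H (sing m / (log m) ^ 2) ^ |F|` times:
so often all the `p + j d` and `m - p - j d`, `j ∈ F`, are prime. This is the order of magnitude of the prediction
of Hardy and Littlewood.

2. Almost all even `m`. For all but `X / (log X) ^ U` of the even `m ≤ X` this holds for the set `P = G` of all
representations in each window; and the same is true if `m = e + v`, where `v` has random independent digits in a fixed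
base, with arbitrary distributions which are not concentrated on one digit, with probability at least `1 - n ^ (-U)`,
`n` the number of the digits.

Method. A sieve majorant for `G` in windows of length `D` (`Pool.Agent.Y843.HS`, helper843 and others), the
relative Szemerédi theorem of Conlon, Fox and Zhao (`Pool.Agent.Y727.PSP`, helper727 and others), and, for the
differences and the parts of the progression, `Pool.Agent.L5helper4.DL`. The asymptotic formula for the number of the
elements of `G` in 2. is the one of `Pool.Agent.W93.PG6` (helper93).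

Definitions used (in `Pool.Agent.H560R3.GB`): `C₂`: the twin prime constant `∏_{p > 2} (1 - 1 / (p - 1) ^ 2)`; `sing m`:
the singular series `2 C₂ ∏_{p ∣ m, p > 2} (p - 1) / (p - 2)`, which is at least `1`.
-/

set_option autoImplicit false

namespace Pool.Agent.Results.MP_61161c_nt.PopularDifferences

open Finset Filter
open Pool.Agent.H560R3.GB (sing)

/-- the primes `p` in `(y₁, y₂]` such that `m - p` is prime -/
def reps (m y₁ y₂ : ℕ) : Finset ℕ := (Ioc y₁ y₂).filter (fun p => p.Prime ∧ (m - p).Prime)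

open Classical in
/-- the number of the elements `p` of `P` such that `p + j d` is in `P` for all `j ∈ F` -/
noncomputable def occurrences (P : Finset ℕ) (F : Finset ℕ) (d : ℕ) : ℕ :=
  (P.filter (fun p => ∀ j ∈ F, p + j * d ∈ P)).card

open Classical in
/-- For all `D` between `(log m) ^ B` and `H / (log m) ^ B` at least `c D` of the `1 ≤ d ≤ D` are such that for
every `F ⊆ {0, …, k - 1}` with `0 ∈ F` at least `c H (sing m / (log m) ^ 2) ^ |F|` elements `p` of `P` are such that
`p + j d` is in `P` for all `j ∈ F`. -/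
def Popular (k B : ℕ) (c : ℝ) (m H : ℕ) (P : Finset ℕ) : Prop :=
  ∀ D : ℕ, Real.log m ^ B ≤ D → D * Real.log m ^ B ≤ H →
    c * D ≤ (((Icc 1 D).filter (fun d => ∀ F ⊆ range k, 0 ∈ F →
      c * (H * (sing m / Real.log m ^ 2) ^ F.card) ≤ (occurrences P F d : ℝ))).card : ℝ)

/-- For every window `(y, y + H] ⊆ [0, m]` with `H ≥ m / (log m) ^ A` the set of all the representations of `m` in
this window is popular. -/
def AllWindows (k A B : ℕ) (c : ℝ) (m : ℕ) : Prop :=
  ∀ y H : ℕ, y + H ≤ m → (m : ℝ) / Real.log m ^ A ≤ H → Popular k B c m H (reps m y (y + H))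

/-- the integer with the digits `d j` in base `b` -/
def value (b : ℕ) {n : ℕ} (d : Fin n → ℕ) : ℕ := ∑ j : Fin n, d j * b ^ (j : ℕ)

/-- the relative theorem -/
theorem rel (k A : ℕ) (δ : ℝ) (hδ : 0 < δ) : ∃ (B : ℕ) (c : ℝ), 0 < c ∧ ∀ᶠ m : ℕ in atTop, Even m →
    ∀ y H : ℕ, y + H ≤ m → (m : ℝ) / Real.log m ^ A ≤ H → ∀ P ⊆ reps m y (y + H),
      δ * (sing m * H / Real.log m ^ 2) ≤ P.card → Popular k B c m H P := by
  obtain ⟨B, c, hc, h⟩ := Pool.Agent.L5helper4.DL.gold k A δ hδ
  refine ⟨B, c, hc, ?_⟩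
  filter_upwards [h] with m hm hev y H hy hH P hP hPc D hD1 hD2
  have e : (((y + H : ℕ) : ℕ) : ℝ) - y = H := by push_cast; ring
  have h1 := hm hev.two_dvd y (y + H) hy (by rw [e]; exact hH) P (fun p hp => by
    have := hP hp
    unfold reps at this
    rw [mem_filter, mem_Ioc] at this
    exact ⟨this.1.1, this.1.2, this.2.1, this.2.2⟩) (by rw [e]; exact hPc) D hD1 (by rw [e]; exact hD2)
  rw [e] at h1
  unfold occurrences
  convert h1 using 4

/-- from the asymptotic formula to the progressions -/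
theorem allW (k A : ℕ) : ∃ (B : ℕ) (c : ℝ), 0 < c ∧ ∃ m₀ : ℕ, ∀ m : ℕ, m₀ ≤ m → 2 ∣ m →
    Pool.Agent.W93.PG.WinP (1 / 2) A m → AllWindows k A B c m := by
  obtain ⟨B, c, hc, h⟩ := rel k A (1 / 2) (by norm_num)
  obtain ⟨m₁, hm₁⟩ := eventually_atTop.1 h
  refine ⟨B, c, hc, m₁ + 3, fun m hm h2 hwin y H hy hH => ?_⟩
  refine hm₁ m (by omega) (even_iff_two_dvd.2 h2) y H hy hH _ (Subset.refl _) ?_
  have hmr : (3 : ℝ) ≤ m := by exact_mod_cast (show 3 ≤ m by omega)
  have hlog : 0 < Real.log m := Real.log_pos (by linarith)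
  have hHpos : (0 : ℝ) < H := lt_of_lt_of_le (by positivity) hH
  have hH0 : 0 < H := by exact_mod_cast hHpos
  have e : (((y + H : ℕ) : ℕ) : ℝ) - y = H := by push_cast; ring
  have h1 := hwin y (y + H) (by omega) hy (by rw [e]; exact hH)
  rw [e] at h1
  have h3 : (Pool.Agent.W93.PG.cnt m y (y + H) : ℝ) = ((reps m y (y + H)).card : ℝ) := rfl
  rw [h3] at h1
  have h4 := (abs_le.1 h1).1
  linarith

open Classical in
theorem digits (k A : ℕ) (B : ℕ) (c : ℝ) (m₀ : ℕ) (h : ∀ m : ℕ, m₀ ≤ m → 2 ∣ m →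
    Pool.Agent.W93.PG.WinP (1 / 2) A m → AllWindows k A B c m) (b h' E U : ℕ) (η : ℝ) (hb : 2 ≤ b) (hη : 0 < η) :
    ∃ n₀ : ℕ, ∀ n : ℕ, n₀ ≤ n → ∀ w : ℕ → ℕ → ℝ, (∀ j < n, ∀ a, 0 ≤ w j a ∧ w j a ≤ 1 - η) →
      (∀ j < n, ∑ a ∈ range h', w j a = 1) → ∀ e : ℤ, |e| ≤ E * (b : ℤ) ^ n →
      ∑ d ∈ (Fintype.piFinset (fun _ : Fin n => range h')).filter (fun d => 0 < e + (value b d : ℤ) ∧
        Even (e + (value b d : ℤ)) ∧ ¬ AllWindows k A B c (e + (value b d : ℤ)).toNat), ∏ j : Fin n, w j (d j) ≤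
        1 / (n : ℝ) ^ U := by
  obtain ⟨n₀, hn⟩ := Pool.Agent.W93.PG.pg_windows b h' E A U m₀ hb η (1 / 2) hη (by norm_num)
    (AllWindows k A B c) h
  refine ⟨n₀, fun n hn0 w hw hsum e he => ?_⟩
  have h1 := hn n hn0 w (fun j hj a => (hw j hj a).1) (fun j hj a => (hw j hj a).2) hsum e he
    (fun d => 0 < e + (value b d : ℤ) ∧ Even (e + (value b d : ℤ)) ∧
      ¬ AllWindows k A B c (e + (value b d : ℤ)).toNat) (Classical.decPred _) (fun d _ hd => by
      refine ⟨hd.1, even_iff_two_dvd.1 hd.2.1, hd.2.2⟩)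
  rw [sum_filter]
  refine le_trans (le_of_eq ?_) h1
  refine sum_congr rfl fun d _ => ?_
  unfold Pool.Agent.W93.RD.pw
  congr

theorem value_bits (n m : ℕ) (hm : m < 2 ^ n) : value 2 (fun j : Fin n => m / 2 ^ (j : ℕ) % 2) = m := by
  have h : ∀ n : ℕ, ∑ j ∈ range n, (m / 2 ^ j % 2) * 2 ^ j = m % 2 ^ n := by
    intro n
    induction n with
    | zero => simp [Nat.mod_one]
    | succ n ih => rw [sum_range_succ, ih, Nat.mod_pow_succ]; ring
  unfold value
  rw [Fin.sum_univ_eq_sum_range (fun j => (m / 2 ^ j % 2) * 2 ^ j), h, Nat.mod_eq_of_lt hm]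

open Classical in
theorem almostAll (k A : ℕ) (B : ℕ) (c : ℝ) (m₀ : ℕ) (h : ∀ m : ℕ, m₀ ≤ m → 2 ∣ m →
    Pool.Agent.W93.PG.WinP (1 / 2) A m → AllWindows k A B c m) (U : ℕ) : ∀ᶠ X : ℕ in atTop,
    (((Icc 1 X).filter (fun m => Even m ∧ ¬ AllWindows k A B c m)).card : ℝ) ≤ X / Real.log X ^ U := by
  obtain ⟨n₀, hn⟩ := digits k A B c m₀ h 2 2 1 (U + 1) (1 / 2) le_rfl (by norm_num)
  have tN : Tendsto (fun N : ℕ => (N : ℝ)) atTop atTop := tendsto_natCast_atTop_atTop
  have hlog1 : ∀ᶠ x : ℕ in atTop, 2 ≤ Real.log x :=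
    (Real.tendsto_log_atTop.comp tN).eventually_ge_atTop 2
  filter_upwards [eventually_ge_atTop (2 ^ n₀), hlog1] with X hX hl
  have hX1 : 1 ≤ X := (Nat.one_le_two_pow).trans hX
  have hXr : (1 : ℝ) ≤ X := by exact_mod_cast hX1
  obtain ⟨n, hnd⟩ : ∃ n, n = Nat.log 2 X + 1 := ⟨_, rfl⟩
  have h1 : X < 2 ^ n := by rw [hnd]; exact Nat.lt_pow_succ_log_self (by norm_num) X
  have h2 : 2 ^ n ≤ 2 * X := by
    rw [hnd, pow_succ, mul_comm]
    exact Nat.mul_le_mul_left 2 (Nat.pow_log_le_self 2 (by omega))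
  have hn0 : n₀ ≤ n := by
    have : n₀ < n := (Nat.pow_lt_pow_iff_right (show 1 < 2 by norm_num)).1 (hX.trans_lt h1)
    omega
  have h3 := hn n hn0 (fun _ a => if a < 2 then 1 / 2 else 0) (fun j _ a => by
      split_ifs <;> norm_num) (fun j _ => by
      rw [Finset.sum_range_succ, Finset.sum_range_one]
      norm_num) 0 (by simp)
  have h4 : ∀ d ∈ (Fintype.piFinset (fun _ : Fin n => range 2)).filter (fun d => 0 < (0 : ℤ) + (value 2 d : ℤ) ∧
        Even ((0 : ℤ) + (value 2 d : ℤ)) ∧ ¬ AllWindows k A B c ((0 : ℤ) + (value 2 d : ℤ)).toNat),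
        (∏ j : Fin n, (if d j < 2 then (1 / 2 : ℝ) else 0)) = (1 / 2) ^ n := by
    intro d hd
    rw [mem_filter, Fintype.mem_piFinset] at hd
    rw [Finset.prod_congr rfl (fun j _ => if_pos (mem_range.1 (hd.1 j))), prod_const, card_univ,
      Fintype.card_fin]
  rw [sum_congr rfl h4, sum_const, nsmul_eq_mul] at h3
  have h5 : ((Icc 1 X).filter (fun m => Even m ∧ ¬ AllWindows k A B c m)).card ≤
      ((Fintype.piFinset (fun _ : Fin n => range 2)).filter (fun d => 0 < (0 : ℤ) + (value 2 d : ℤ) ∧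
        Even ((0 : ℤ) + (value 2 d : ℤ)) ∧ ¬ AllWindows k A B c ((0 : ℤ) + (value 2 d : ℤ)).toNat)).card := by
    apply card_le_card_of_injOn (fun m => fun j : Fin n => m / 2 ^ (j : ℕ) % 2)
    · intro m hm
      rw [mem_coe, mem_filter, mem_Icc] at hm
      have hv := value_bits n m (by omega)
      rw [mem_coe, mem_filter, Fintype.mem_piFinset, hv]
      refine ⟨fun j => mem_range.2 (Nat.mod_lt _ (by norm_num)), by omega, ?_, ?_⟩
      · rw [zero_add]
        exact_mod_cast hm.2.1
      · rw [zero_add, Int.toNat_natCast]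
        exact hm.2.2
    · intro m hm m' hm' he
      rw [mem_coe, mem_filter, mem_Icc] at hm hm'
      have hv := value_bits n m (by omega)
      have hv' := value_bits n m' (by omega)
      simp only at he
      rw [← hv, ← hv', he]
  have h6 : (((Icc 1 X).filter (fun m => Even m ∧ ¬ AllWindows k A B c m)).card : ℝ) * (1 / 2) ^ n ≤
      1 / (n : ℝ) ^ (U + 1) := by
    refine le_trans ?_ h3
    apply mul_le_mul_of_nonneg_right _ (by positivity)
    exact_mod_cast h5
  have hln : Real.log X ≤ n := by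
    have h7 : (X : ℝ) ≤ 2 ^ n := by exact_mod_cast h1.le
    have h8 := Real.log_le_log (by linarith) h7
    rw [Real.log_pow] at h8
    have h9 := Real.log_two_lt_d9
    have h10 : (0 : ℝ) ≤ n := Nat.cast_nonneg n
    nlinarith
  have h7 : (((Icc 1 X).filter (fun m => Even m ∧ ¬ AllWindows k A B c m)).card : ℝ) ≤
      2 ^ n / (n : ℝ) ^ (U + 1) := by
    rw [one_div, inv_pow, ← div_eq_mul_inv, div_le_iff₀ (by positivity)] at h6
    calc _ ≤ 1 / (n : ℝ) ^ (U + 1) * 2 ^ n := h6
      _ = _ := by ring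
  refine h7.trans ?_
  have h8 : (2 : ℝ) ^ n ≤ 2 * X := by exact_mod_cast h2
  calc (2 : ℝ) ^ n / (n : ℝ) ^ (U + 1) ≤ 2 * X / Real.log X ^ (U + 1) := by
        gcongr
    _ = X / Real.log X ^ U * (2 / Real.log X) := by
        rw [pow_succ]
        have : Real.log X ≠ 0 := by linarith
        field_simp
    _ ≤ X / Real.log X ^ U * 1 := by
        apply mul_le_mul_of_nonneg_left _ (by positivity)
        rw [div_le_one (by linarith)]
        exact hl
    _ = _ := mul_one _

open Classical in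
/-- **Progressions of representations as a sum of two primes.** (1) For every `k, A` and `δ > 0` there are `B` and
`c > 0` such that for all large even `m`, all windows `(y, y + H] ⊆ [0, m]` with `H ≥ m / (log m) ^ A` and EVERY set
`P` of at least `δ sing m H / (log m) ^ 2` primes `p` of the window with `m - p` prime, `P` is popular. (2) For every
`k, A` there are `B` and `c > 0` such that (a) for every `U` all even `m ≤ X` but at most `X / (log X) ^ U` are
such that for all these windows the set of all these `p` is popular, and (b) the same holds with probability at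
least `1 - n ^ (-U)` for the even ones of the positive integers `e + v`, where `e` is fixed and `v` has `n` random
independent digits in base `b`. -/
theorem result (k A : ℕ) :
    (∀ δ : ℝ, 0 < δ → ∃ (B : ℕ) (c : ℝ), 0 < c ∧ ∀ᶠ m : ℕ in atTop, Even m →
      ∀ y H : ℕ, y + H ≤ m → (m : ℝ) / Real.log m ^ A ≤ H → ∀ P ⊆ reps m y (y + H),
        δ * (sing m * H / Real.log m ^ 2) ≤ P.card → Popular k B c m H P) ∧
    ∃ (B : ℕ) (c : ℝ), 0 < c ∧
      (∀ U : ℕ, ∀ᶠ X : ℕ in atTop,
        (((Icc 1 X).filter (fun m => Even m ∧ ¬ AllWindows k A B c m)).card : ℝ) ≤ X / Real.log X ^ U) ∧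
      ∀ (b h E U : ℕ) (η : ℝ), 2 ≤ b → 0 < η →
        ∃ n₀ : ℕ, ∀ n : ℕ, n₀ ≤ n → ∀ w : ℕ → ℕ → ℝ, (∀ j < n, ∀ a, 0 ≤ w j a ∧ w j a ≤ 1 - η) →
        (∀ j < n, ∑ a ∈ range h, w j a = 1) → ∀ e : ℤ, |e| ≤ E * (b : ℤ) ^ n →
        ∑ d ∈ (Fintype.piFinset (fun _ : Fin n => range h)).filter (fun d => 0 < e + (value b d : ℤ) ∧
          Even (e + (value b d : ℤ)) ∧ ¬ AllWindows k A B c (e + (value b d : ℤ)).toNat),
            ∏ j : Fin n, w j (d j) ≤ 1 / (n : ℝ) ^ U := by
  refine ⟨fun δ hδ => rel k A δ hδ, ?_⟩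
  obtain ⟨B, c, hc, m₀, h⟩ := allW k A
  exact ⟨B, c, hc, fun U => almostAll k A B c m₀ h U,
    fun b h' E U η hb hη => digits k A B c m₀ h b h' E U η hb hη⟩

end Pool.Agent.Results.MP_61161c_nt.PopularDifferences
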