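import Pool.Agent.N625.GW.D
import Pool.Agent.N625.DY.I
import Pool.Agent.Results.MP_61161c_nt.DigitPermutations

set_option autoImplicit false

/-!
# Sums of two distinct and almost equal odd primes, for all even integers near almost all integers whose digits label the
walks in a graph

The two ingredients are in the starting files: the class of the walks (`Pool.Agent.N625.GW.w_cls`) and the circle method
for the representations in windows, in a generic form (`Pool.Agent.N625.DY.cls_gold`, `Pool.Agent.W93.PG`,
`Pool.Agent.TH872`).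

Definitions used (in `Pool.Agent.H560R3.GB`): `C₂`: the twin prime constant `∏_{p > 2} (1 - 1 / (p - 1) ^ 2)`; `sing m`:
the singular series `2 C₂ ∏_{p ∣ m, p > 2} (p - 1) / (p - 2)`.
-/

namespace Pool.Agent.Results.MP_61161c_nt.WalkNeighbourhoods

open Finset Pool.Agent.H560R3.GB

/-- The digits `a < b` act on the set `X` of the vertices: an edge with the label `a` leads from `x` to `y` if
`δ x a = some y` (at most one edge with the label `a` starts at `x`). The number of the edges from `x` to `y` equals the
number of the edges from `y` to `x`, and at least two edges start at every vertex. The graph may be infinite. -/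
structure Graph {X : Type} (b : ℕ) (δ : X → ℕ → Option X) : Prop where
  symm : ∀ x y : X, {a : ℕ | a < b ∧ δ x a = some y}.ncard = {a : ℕ | a < b ∧ δ y a = some x}.ncard
  two : ∀ x : X, ∃ a a' : ℕ, a < a' ∧ a' < b ∧ (δ x a).isSome ∧ (δ x a').isSome

open Classical in
/-- The integers `v < b ^ k` whose `k` digits in base `b`, from the most significant to the least significant one (the
digit number `i`, `0 ≤ i < k`, from the left is `v / b ^ (k - 1 - i) % b`), are the labels of a walk from `x` to `y`. -/
noncomputable def walks {X : Type} (b : ℕ) (δ : X → ℕ → Option X) (k : ℕ) (x y : X) : Finset ℕ :=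
  (range (b ^ k)).filter fun v =>
    ((List.range k).map fun i => v / b ^ (k - 1 - i) % b).foldl (fun s a => s.bind fun z => δ z a) (some x) = some y

/-- The number of the `p` such that `p` and `p' = m - p` are odd primes, `p < p'` and `p' - p ≤ H`. -/
def N (m H : ℕ) : ℕ :=
  ((range m).filter (fun p => p.Prime ∧ p ≠ 2 ∧ (m - p).Prime ∧ m - p ≠ 2 ∧ p < m - p ∧ m - p ≤ p + H)).card

/-- For every `H` with `m / log ^ A m ≤ H ≤ m` there are distinct odd primes `p < p'` with `p + p' = m` and
`p' - p ≤ H`, and the number of these pairs is `sing m * H / (2 log ^ 2 m)` up to a relative error of at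
most `ε`. -/
def Holds (ε : ℝ) (A m : ℕ) : Prop :=
  ∀ H : ℕ, H ≤ m → (m : ℝ) / Real.log m ^ A ≤ H →
    (∃ p p' : ℕ, p.Prime ∧ p'.Prime ∧ p ≠ 2 ∧ p' ≠ 2 ∧ p < p' ∧ p + p' = m ∧ p' - p ≤ H) ∧
    |(N m H : ℝ) - sing m * H / (2 * Real.log m ^ 2)| ≤ ε * (sing m * H / (2 * Real.log m ^ 2))

open Classical in
/-- Let `δ` be a graph whose edges are labelled with the digits in base `b`, let `x` be a vertex, and let `ρ > 0` be such
that there are at most `ρ ^ (2 n)` closed walks of the length `2 n` at `x`, for all `n`. Let `D`, `κ ≠ 0`, `B`, `A`, `W`,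
`U` and `ε > 0` be fixed, let `k` be large, let `y` be a vertex such that the number of the walks of the length `k` from
`x` to `y` is at least `ρ ^ k / k ^ D`, and let `c` be an arbitrary integer with `|c| ≤ B b ^ k`. For all the integers `v`
whose `k` digits are the labels of a walk from `x` to `y`, with the exception of a proportion of at most `1 / k ^ U` of
them, ALL the even integers `m > 0` at a distance of at most `k ^ W` from `c + κ v` are sums of two distinct odd primes
`p < p'`, even with `p' - p ≤ H` for every `H` with `m / log ^ A m ≤ H ≤ m`, and the number of these representations is as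
predicted, up to a relative error of at most `ε`.

(For a group of polynomial growth, a free group, or any group with the property of rapid decay, there are at least
`ρ ^ k / k ^ D` closed walks of every even length `k` in the Cayley graph, where `ρ` is its spectral radius.) -/
theorem result (b : ℕ) (X : Type) (δ : X → ℕ → Option X) (hG : Graph b δ) (x : X) (ρ : ℝ) (hρ : 0 < ρ)
    (hR : ∀ n : ℕ, ((walks b δ (2 * n) x x).card : ℝ) ≤ ρ ^ (2 * n)) (D : ℕ) (κ : ℤ) (hκ : κ ≠ 0) (B A W U : ℕ)
    (ε : ℝ) (hε : 0 < ε) :
    ∃ k₀ : ℕ, ∀ k : ℕ, k₀ ≤ k → ∀ y : X, ρ ^ k / (k : ℝ) ^ D ≤ (walks b δ k x y).card → ∀ c : ℤ, |c| ≤ B * (b : ℤ) ^ k →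
      (((walks b δ k x y).filter fun v => ¬ ∀ m : ℤ, |m - (c + κ * (v : ℕ))| ≤ (k : ℤ) ^ W → 0 < m → Even m →
        Holds ε A m.toNat).card : ℝ) ≤ (walks b δ k x y).card / (k : ℝ) ^ U := by
  classical
  obtain ⟨m₀, hm⟩ := MP_61161c_nt.DigitPermutations.holds_of A ε hε
  obtain ⟨k₀, h0⟩ := Pool.Agent.N625.DY.cls_gold
    (Pool.Agent.N625.GW.w_cls (δ := δ) ⟨hG.symm, hG.two⟩ x ρ hρ hR D κ hκ) B (A + 1) W U m₀
    (min ε (1 / 2) / 2) (div_pos (lt_min hε (by norm_num)) (by norm_num)) (Holds ε A) hm
    (fun y => 0 < y → Even y → Holds ε A y.toNat)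
    (fun y hy => by
      push Not at hy
      exact hy)
  refine ⟨k₀ + 1, fun k hk y hy c hc => ?_⟩
  have hk1 : (0 : ℝ) < (k : ℝ) ^ D := by
    have : (0 : ℝ) < k := by exact_mod_cast (by omega : 0 < k)
    positivity
  have hy' : ρ ^ k ≤ (k : ℝ) ^ D * (walks b δ k x y).card := by
    rw [div_le_iff₀ hk1, mul_comm] at hy
    exact hy
  have h1 := Pool.Agent.N625.GW.w_count k x y ρ hρ D hy'
    (fun v => ∀ m : ℤ, |m - (c + κ * (v : ℕ))| ≤ (k : ℤ) ^ W → 0 < m → Even m → Holds ε A m.toNat)
    (1 / (k : ℝ) ^ U) (fun p hp => h0 k (by omega) p hp c hc)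
  rw [← mul_one_div]
  exact h1

end Pool.Agent.Results.MP_61161c_nt.WalkNeighbourhoods
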